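import Pool.Agent.Helper94.Hurwitz.Coxeter

/-!
# MP_1b5ef1_co: the radius of the Hurwitz graph of type `B_n` is `n.choose 2 + 1`

The hyperoctahedral group `B_n` is realised by the odd permutations of `ℤ` which fix every integer
outside `{±1, …, ±n}` (`hyperoctahedral n`).  The definitions (simple reflections, reflections,
Coxeter elements, reduced words, Hurwitz graph) are in `Pool/Agent/Helper94/Hurwitz/Defs.lean`.

* Upper bound (`Upper.lean`): every reduced word can be brought to `(s₀, s₁, …, s_{n-1})` by at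
  most `n.choose 2 + 1` Hurwitz moves, carrying the letters which move `n`, `n-1`, … to the right.
* Lower bound (`Flags.lean`, `Lower.lean`): a word gives a flag of fixed spaces of odd functions;
  a Hurwitz move changes one member of the flag, so the distance is at least the number of
  inversions of the relative position of two flags.  For each word there is an opposite word for
  which, in addition, the position of the unique short letter forces one more move.
-/

set_option autoImplicit false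

open Equiv Pool.Agent.Helper94.Hurwitz

namespace Pool.Agent.Results.MP_1b5ef1_co.RadiusTypeB

variable {n : ℕ} {c g : Perm ℤ}

/-- conjugation of words -/
def cw (g : Perm ℤ) (u : List (Perm ℤ)) : List (Perm ℤ) := u.map (fun t => g * t * g⁻¹)

theorem cw_move {u v : List (Perm ℤ)} (h : HurwitzMove u v) : HurwitzMove (cw g u) (cw g v) := by
  obtain ⟨p, q, s, t, rfl, hv⟩ := h
  refine ⟨cw g p, cw g q, g * s * g⁻¹, g * t * g⁻¹, by simp [cw], ?_⟩
  rcases hv with rfl | rfl
  · left
    simp only [cw, List.map_append, List.map_cons]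
    congr 2
    group
  · right
    simp only [cw, List.map_append, List.map_cons]
    congr 3
    group

theorem cw_rch {u v : List (Perm ℤ)} {k : ℕ} (h : Rch k u v) : Rch k (cw g u) (cw g v) := by
  induction h with
  | refl k u => exact Rch.refl _ _
  | step h1 h2 ih => exact Rch.step (cw_move h1) ih

theorem cw_prod (u : List (Perm ℤ)) : (cw g u).prod = g * u.prod * g⁻¹ := by
  induction u with
  | nil => simp [cw]
  | cons t u ih =>
    have e : cw g (t :: u) = (g * t * g⁻¹) :: cw g u := rfl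
    rw [e, List.prod_cons, ih, List.prod_cons]
    group

theorem cw_inv (u : List (Perm ℤ)) : cw g (cw g⁻¹ u) = u := by
  unfold cw
  rw [List.map_map]
  have : ((fun t => g * t * g⁻¹) ∘ fun t => g⁻¹ * t * g⁻¹⁻¹) = id := by
    funext t
    simp only [Function.comp_apply, id]
    group
  rw [this, List.map_id]

theorem cw_inv' (u : List (Perm ℤ)) : cw g⁻¹ (cw g u) = u := by
  have := cw_inv (g := g⁻¹) u
  rwa [inv_inv] at this

theorem cw_length (u : List (Perm ℤ)) : (cw g u).length = u.length := by simp [cw]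

theorem cw_refl {u : List (Perm ℤ)} (hg : g ∈ hyperoctahedral n)
    (hu : ∀ t ∈ u, t ∈ reflections n) : ∀ t ∈ cw g u, t ∈ reflections n := by
  intro t ht
  obtain ⟨s, hs, rfl⟩ := List.mem_map.mp ht
  exact reflections_conj (hu s hs) hg

theorem to_Vx (hg : g ∈ hyperoctahedral n) (hc : c = g * coxeterElement n * g⁻¹)
    {u : List (Perm ℤ)} (hu : ∀ t ∈ u, t ∈ reflections n) (hp : u.prod = c) :
    ASL n (cw g⁻¹ u) ∧ (cw g⁻¹ u).prod = coxeterElement n := by
  refine ⟨fun t ht => reflections_SL (cw_refl (inv_mem hg) hu t ht), ?_⟩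
  rw [cw_prod, hp, hc]
  group

theorem st_refl (n : ℕ) : ∀ t ∈ st n, t ∈ reflections n := by
  intro t ht
  simp only [st, List.mem_map, List.mem_range] at ht
  obtain ⟨i, hi, rfl⟩ := ht
  exact simple_mem hi

/-- the reduced words are the words of length `n` -/
theorem reduced_iff (hn : 1 ≤ n) (hg : g ∈ hyperoctahedral n)
    (hc : c = g * coxeterElement n * g⁻¹) (u : List (Perm ℤ)) :
    IsReducedWord n c u ↔ (∀ t ∈ u, t ∈ reflections n) ∧ u.prod = c ∧ u.length = n := by
  have hmin : ∀ l : List (Perm ℤ), (∀ t ∈ l, t ∈ reflections n) → l.prod = c → n ≤ l.length := by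
    intro l hl hp
    obtain ⟨h1, h2⟩ := to_Vx hg hc hl hp
    have := length_ge hn _ h1 h2
    rwa [cw_length] at this
  constructor
  · rintro ⟨h1, h2, h3⟩
    refine ⟨h1, h2, le_antisymm ?_ (hmin u h1 h2)⟩
    have := h3 (cw g (st n)) (cw_refl hg (st_refl n)) (by rw [cw_prod, st_prod, hc])
    rwa [cw_length, st_length] at this
  · rintro ⟨h1, h2, h3⟩
    exact ⟨h1, h2, fun l hl hp => by rw [h3]; exact hmin l hl hp⟩

theorem Vx_of (hn : 1 ≤ n) (hg : g ∈ hyperoctahedral n)
    (hc : c = g * coxeterElement n * g⁻¹) {u : List (Perm ℤ)} (hu : IsReducedWord n c u) :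
    Vx n (cw g⁻¹ u) := by
  rw [reduced_iff hn hg hc] at hu
  obtain ⟨h1, h2⟩ := to_Vx hg hc hu.1 hu.2.1
  exact ⟨h1, h2, by rw [cw_length, hu.2.2]⟩

theorem move_reduced (hn : 1 ≤ n) (hg : g ∈ hyperoctahedral n)
    (hc : c = g * coxeterElement n * g⁻¹) {u v : List (Perm ℤ)} (hu : IsReducedWord n c u)
    (h : HurwitzMove u v) : IsReducedWord n c v := by
  rw [reduced_iff hn hg hc] at hu ⊢
  have hA : ASL n u := fun t ht => reflections_SL (hu.1 t ht)
  exact ⟨move_refl h hu.1, by rw [move_prod h hA, hu.2.1], by rw [move_length h, hu.2.2]⟩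

theorem rch_edist (hn : 1 ≤ n) (hg : g ∈ hyperoctahedral n)
    (hc : c = g * coxeterElement n * g⁻¹) {k : ℕ} {u v : List (Perm ℤ)} (h : Rch k u v) :
    ∀ hu : IsReducedWord n c u, ∃ hv : IsReducedWord n c v,
      (hurwitzGraph n c).edist ⟨u, hu⟩ ⟨v, hv⟩ ≤ k := by
  induction h with
  | refl k u => intro hu; exact ⟨hu, by rw [SimpleGraph.edist_self]; exact bot_le⟩
  | @step k u u' v h1 h2 ih =>
    intro hu
    have hu' := move_reduced hn hg hc hu h1
    obtain ⟨hv, hd⟩ := ih hu'
    refine ⟨hv, ?_⟩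
    have h3 : (hurwitzGraph n c).edist ⟨u, hu⟩ ⟨u', hu'⟩ ≤ 1 := by
      rw [SimpleGraph.edist_le_one_iff_adj_or_eq]
      by_cases he : (⟨u, hu⟩ : {l : List (Perm ℤ) // IsReducedWord n c l}) = ⟨u', hu'⟩
      · right; exact he
      · left; exact ⟨he, Or.inl h1⟩
    calc (hurwitzGraph n c).edist ⟨u, hu⟩ ⟨v, hv⟩
        ≤ (hurwitzGraph n c).edist ⟨u, hu⟩ ⟨u', hu'⟩ +
          (hurwitzGraph n c).edist ⟨u', hu'⟩ ⟨v, hv⟩ := SimpleGraph.edist_triangle
      _ ≤ 1 + k := add_le_add h3 hd
      _ = ((k + 1 : ℕ) : ℕ∞) := by push_cast; ring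

theorem walk_rch {u v : {l : List (Perm ℤ) // IsReducedWord n c l}}
    (p : (hurwitzGraph n c).Walk u v) : Rch p.length u.1 v.1 := by
  induction p with
  | nil => exact Rch.refl _ _
  | @cons u u' v h p ih =>
    rw [SimpleGraph.Walk.length_cons]
    rcases h.2 with h1 | h1
    · exact Rch.step h1 ih
    · exact Rch.step (move_symm h1 (fun t ht => reflections_SL (u'.2.1 t ht))) ih

/-- **Main theorem.** For every `n ≥ 2` and every Coxeter element `c` of `B_n`, the radius of the
Hurwitz graph is `n.choose 2 + 1`. -/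
theorem result (n : ℕ) (hn : 2 ≤ n) (c : Perm ℤ) (hc : IsCoxeterElement n c) :
    (hurwitzGraph n c).radius = ((n.choose 2 + 1 : ℕ) : ℕ∞) := by
  have hn1 : 1 ≤ n := by omega
  obtain ⟨l, hl, rfl⟩ := hc
  obtain ⟨g, hg, hge⟩ := cox_conj n hn1 l hl
  have hst : IsReducedWord n ((l.map simple).prod) (cw g (st n)) := by
    rw [reduced_iff hn1 hg hge]
    exact ⟨cw_refl hg (st_refl n), by rw [cw_prod, st_prod, hge], by rw [cw_length, st_length]⟩
  apply le_antisymm
  · -- the centre
    refine le_trans (SimpleGraph.radius_le_eccent (u := ⟨cw g (st n), hst⟩)) ?_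
    rw [SimpleGraph.eccent_le_iff]
    rintro ⟨u, hu⟩
    have hV := Vx_of hn1 hg hge hu
    have h1 := upper n hn1 le_rfl (cw g⁻¹ u)
      (good_of_cox hn1 _ hV.1 hV.2.1 hV.2.2) hV.2.2 hV.2.1
    have h2 := cw_rch (g := g) h1
    rw [cw_inv] at h2
    obtain ⟨hv, hd⟩ := rch_edist hn1 hg hge h2 hu
    rw [SimpleGraph.edist_comm]
    exact hd
  · -- the lower bound
    refine le_iInf ?_
    rintro ⟨v, hv⟩
    obtain ⟨w, ⟨k0, hk0⟩, hlow⟩ := lower hn (Vx_of hn1 hg hge hv)
    obtain ⟨hw, -⟩ := rch_edist hn1 hg hge (cw_rch (g := g) hk0) hst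
    refine le_trans ?_ (SimpleGraph.edist_le_eccent (G := hurwitzGraph n ((l.map simple).prod))
      (u := ⟨v, hv⟩) (v := ⟨cw g w, hw⟩))
    by_contra hlt
    rw [not_le] at hlt
    have hne : (hurwitzGraph n ((l.map simple).prod)).edist ⟨v, hv⟩ ⟨cw g w, hw⟩ ≠ ⊤ := by
      intro h
      rw [h] at hlt
      exact not_top_lt hlt
    obtain ⟨p, hp⟩ := SimpleGraph.exists_walk_of_edist_ne_top hne
    have h1 := cw_rch (g := g⁻¹) (walk_rch p)
    simp only at h1
    rw [cw_inv'] at h1
    have h2 := hlow _ h1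
    rw [← hp] at hlt
    have h3 : p.length < n.choose 2 + 1 := by exact_mod_cast hlt
    omega

end Pool.Agent.Results.MP_1b5ef1_co.RadiusTypeB
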